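import Pool.Agent.Results.MP_08a990_an.RankOne

/-!
# MP_08a990_an: all realizable triples in which `A` or `B` has `n - 1` equal eigenvalues

The triple `(a, b, s)` is characterised for all `n`, all `a`, all `s` and all `b` of which all but
at most one entries are equal to some real number `μ` (not necessarily zero, and the exceptional
entry may be larger or smaller), and so is the triple `(b, a, s)`.
-/

set_option autoImplicit false

open Matrix Polynomial Finset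

namespace Pool.Agent.Results.MP_08a990_an.OneExceptional

open Pool.Agent.Results.MP_08a990_an.RankOne

/-! ### the determinant -/

theorem det_two {n : ℕ} (p a u : Fin n → ℝ) (β κ : ℝ) (hp : ∀ j, p j ≠ 0) :
    (Matrix.diagonal (fun j => ((p j : ℝ) : ℂ)) +
      Matrix.of (fun i j => ((κ * u i * u j : ℝ) : ℂ) +
        Complex.I * ((β * (a i - a j) * u i * u j : ℝ) : ℂ))).det =
      (((∏ j, p j) * (1 + κ * (∑ j, u j ^ 2 / p j) + β ^ 2 * (∑ j, a j * u j ^ 2 / p j) ^ 2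
        - β ^ 2 * (∑ j, u j ^ 2 / p j) * (∑ j, a j ^ 2 * u j ^ 2 / p j)) : ℝ) : ℂ) := by
  have h := det_id_two p (fun j => β * a j) u 1 κ hp
  have e1 : (Matrix.of (fun i j => ((1 ^ 2 * κ * u i * u j : ℝ) : ℂ) +
        Complex.I * ((1 * (β * a i - β * a j) * u i * u j : ℝ) : ℂ)) : Matrix (Fin n) (Fin n) ℂ) =
      Matrix.of (fun i j => ((κ * u i * u j : ℝ) : ℂ) +
        Complex.I * ((β * (a i - a j) * u i * u j : ℝ) : ℂ)) := by
    ext i j
    simp only [Matrix.of_apply]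
    push_cast
    ring
  have e2 : ∑ j, (β * a j) * u j ^ 2 / p j = β * ∑ j, a j * u j ^ 2 / p j := by
    rw [Finset.mul_sum]
    exact Finset.sum_congr rfl fun j _ => by ring
  have e3 : ∑ j, (β * a j) ^ 2 * u j ^ 2 / p j = β ^ 2 * ∑ j, a j ^ 2 * u j ^ 2 / p j := by
    rw [Finset.mul_sum]
    exact Finset.sum_congr rfl fun j _ => by ring
  beta_reduce at h
  rw [e1, e2, e3] at h
  rw [h]
  generalize (∑ j, u j ^ 2 / p j) = s0
  generalize (∑ j, a j * u j ^ 2 / p j) = s1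
  generalize (∑ j, a j ^ 2 * u j ^ 2 / p j) = s2
  rw [← Complex.ofReal_prod]
  generalize (∏ j, p j) = PP
  push_cast
  linear_combination ((PP : ℂ) * β ^ 2 * s0 * s2 - PP * β ^ 2 * s1 ^ 2) * Complex.I_sq

/-- the explicit matrices `diag a + i μ + i β u uᵀ` -/
noncomputable def XX {n : ℕ} (a u : Fin n → ℝ) (β μ : ℝ) : Matrix (Fin n) (Fin n) ℂ :=
  Matrix.diagonal (fun j => ((a j : ℝ) : ℂ) + Complex.I * μ) +
    Complex.I • Matrix.of (fun i j => ((β * u i * u j : ℝ) : ℂ))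

theorem XX_eq {n : ℕ} (a u : Fin n → ℝ) (β μ : ℝ) :
    XX a u β μ = MM a u β + (Complex.I * μ) • (1 : Matrix (Fin n) (Fin n) ℂ) := by
  unfold XX MM
  ext i j
  simp only [Matrix.add_apply, Matrix.smul_apply, smul_eq_mul]
  by_cases hij : i = j
  · subst hij
    rw [Matrix.diagonal_apply_eq, Matrix.diagonal_apply_eq, Matrix.one_apply_eq]
    ring
  · rw [Matrix.diagonal_apply_ne _ hij, Matrix.diagonal_apply_ne _ hij, Matrix.one_apply_ne hij]
    ring

theorem XX_H {n : ℕ} (a u : Fin n → ℝ) (β μ : ℝ) :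
    (XX a u β μ)ᴴ = Matrix.diagonal (fun j => ((a j : ℝ) : ℂ) - Complex.I * μ) -
        Complex.I • Matrix.of (fun i j => ((β * u i * u j : ℝ) : ℂ)) := by
  ext i j
  rw [Matrix.conjTranspose_apply, XX, Matrix.add_apply, Matrix.sub_apply, Matrix.smul_apply,
    Matrix.smul_apply, Matrix.of_apply, Matrix.of_apply, star_add]
  have e1 : star ((Matrix.diagonal (fun j => ((a j : ℝ) : ℂ) + Complex.I * μ)) j i) =
      (Matrix.diagonal (fun j => ((a j : ℝ) : ℂ) - Complex.I * μ)) i j := by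
    by_cases hij : i = j
    · subst hij
      rw [Matrix.diagonal_apply_eq, Matrix.diagonal_apply_eq]
      simp only [RCLike.star_def, map_add, map_mul, Complex.conj_ofReal, Complex.conj_I]
      ring
    · rw [Matrix.diagonal_apply_ne _ hij, Matrix.diagonal_apply_ne _ (Ne.symm hij), star_zero]
  have e2 : star (Complex.I • ((β * u j * u i : ℝ) : ℂ)) =
      -(Complex.I • ((β * u i * u j : ℝ) : ℂ)) := by
    rw [smul_eq_mul, smul_eq_mul, star_mul']
    have e3 : star Complex.I = -Complex.I := Complex.conj_I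
    have e4 : star ((β * u j * u i : ℝ) : ℂ) = ((β * u j * u i : ℝ) : ℂ) := Complex.conj_ofReal _
    rw [e3, e4]
    push_cast
    ring
  rw [e1, e2, sub_eq_add_neg]

theorem det_XX {n : ℕ} (a u : Fin n → ℝ) (β μ x : ℝ) (hx : x ≠ 0) (hu : ∑ j, u j ^ 2 = 1) :
    (((x ^ 2 - μ ^ 2 : ℝ) : ℂ) • (1 : Matrix (Fin n) (Fin n) ℂ) +
      (XX a u β μ)ᴴ * XX a u β μ).det =
    (((∏ j, (x ^ 2 + a j ^ 2)) + β ^ 2 *
        ‖∑ j, ((u j ^ 2 : ℝ) : ℂ) * ∏ i ∈ univ.erase j, ((x : ℂ) + Complex.I * a i)‖ ^ 2 +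
        2 * μ * β * ((∏ j, (x ^ 2 + a j ^ 2)) * ∑ j, u j ^ 2 / (x ^ 2 + a j ^ 2)) : ℝ) : ℂ) := by
  have hp : ∀ j, (x ^ 2 + a j ^ 2) ≠ 0 := fun j => by positivity
  have h0 : (((x ^ 2 - μ ^ 2 : ℝ) : ℂ) • (1 : Matrix (Fin n) (Fin n) ℂ) +
      (XX a u β μ)ᴴ * XX a u β μ) =
      (Matrix.diagonal (fun j => ((x ^ 2 + a j ^ 2 : ℝ) : ℂ)) +
      Matrix.of (fun i j => (((β ^ 2 + 2 * μ * β) * u i * u j : ℝ) : ℂ) +
        Complex.I * ((β * (a i - a j) * u i * u j : ℝ) : ℂ))) := by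
    rw [XX_H, XX, Matrix.sub_mul, Matrix.mul_add, Matrix.mul_add, Matrix.diagonal_mul_diagonal]
    ext i j
    simp only [Matrix.add_apply, Matrix.sub_apply, Matrix.smul_apply, Matrix.smul_mul,
      Matrix.mul_smul, Matrix.diagonal_mul, Matrix.mul_diagonal, Matrix.of_apply, smul_eq_mul]
    have e5 : (Matrix.of (fun i j => ((β * u i * u j : ℝ) : ℂ)) *
        Matrix.of (fun i j => ((β * u i * u j : ℝ) : ℂ)) : Matrix (Fin n) (Fin n) ℂ) i j =
        ((β ^ 2 * u i * u j : ℝ) : ℂ) := by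
      rw [Matrix.mul_apply]
      simp only [Matrix.of_apply]
      have e6 : ((β ^ 2 * u i * u j : ℝ) : ℂ) = ((β ^ 2 * (∑ k, u k ^ 2) * u i * u j : ℝ) : ℂ) := by
        rw [hu, mul_one]
      rw [e6, Finset.mul_sum, Finset.sum_mul, Finset.sum_mul, Complex.ofReal_sum]
      apply Finset.sum_congr rfl
      intro k _
      push_cast
      ring
    rw [e5]
    by_cases hij : i = j
    · subst hij
      rw [Matrix.diagonal_apply_eq, Matrix.diagonal_apply_eq, Matrix.one_apply_eq]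
      push_cast
      linear_combination (-((β : ℂ) ^ 2 * u i * u i) - 2 * μ * β * u i * u i - (μ : ℂ) ^ 2) *
        Complex.I_sq
    · rw [Matrix.diagonal_apply_ne _ hij, Matrix.diagonal_apply_ne _ hij, Matrix.one_apply_ne hij]
      push_cast
      linear_combination (-((β : ℂ) ^ 2 * u i * u j) - 2 * μ * β * u i * u j) * Complex.I_sq
  have hN : (1 : ℝ) = x ^ 2 * (∑ j, u j ^ 2 / (x ^ 2 + a j ^ 2)) +
      ∑ j, a j ^ 2 * u j ^ 2 / (x ^ 2 + a j ^ 2) := by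
    rw [← hu, Finset.mul_sum, ← Finset.sum_add_distrib]
    apply Finset.sum_congr rfl
    intro j _
    have := hp j
    field_simp
  rw [h0, det_two (fun j => x ^ 2 + a j ^ 2) a u β _ hp, det_id_norm a u x hx]
  revert hN
  generalize (∑ j, u j ^ 2 / (x ^ 2 + a j ^ 2)) = s0
  generalize (∑ j, a j * u j ^ 2 / (x ^ 2 + a j ^ 2)) = s1
  generalize (∑ j, a j ^ 2 * u j ^ 2 / (x ^ 2 + a j ^ 2)) = s2
  generalize (∏ j, (x ^ 2 + a j ^ 2)) = PP
  intro hN
  congr 1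
  linear_combination (PP * β ^ 2 * s0) * hN

/-! ### the mixed term -/

theorem mixed {n : ℕ} (a u : Fin n → ℝ) (x : ℝ) (hx : x ≠ 0) :
    ((∑ j, ((u j ^ 2 : ℝ) : ℂ) * ∏ i ∈ univ.erase j, ((x : ℂ) + Complex.I * a i)) *
        ∏ j, ((x : ℂ) - Complex.I * a j)).re =
    x * ((∏ j, (x ^ 2 + a j ^ 2)) * ∑ j, u j ^ 2 / (x ^ 2 + a j ^ 2)) := by
  have hp : ∀ j, (x ^ 2 + a j ^ 2) ≠ 0 := fun j => by positivity
  have h3 : ∀ i, (((x : ℂ) + Complex.I * a i) * ((x : ℂ) - Complex.I * a i)) =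
      ((x ^ 2 + a i ^ 2 : ℝ) : ℂ) := by
    intro i
    push_cast
    linear_combination (-(a i : ℂ) ^ 2) * Complex.I_sq
  have h1 : (∑ j, ((u j ^ 2 : ℝ) : ℂ) * ∏ i ∈ univ.erase j, ((x : ℂ) + Complex.I * a i)) *
        ∏ j, ((x : ℂ) - Complex.I * a j) =
      ∑ j, ((((∏ j, (x ^ 2 + a j ^ 2)) * (u j ^ 2 / (x ^ 2 + a j ^ 2)) * x : ℝ) : ℂ) -
        Complex.I * (((∏ j, (x ^ 2 + a j ^ 2)) * (u j ^ 2 / (x ^ 2 + a j ^ 2)) * a j : ℝ) : ℂ)) := by
    rw [Finset.sum_mul]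
    refine Finset.sum_congr rfl fun j _ => ?_
    have e1 : ∏ j, ((x : ℂ) - Complex.I * a j) =
        ((x : ℂ) - Complex.I * a j) * ∏ i ∈ univ.erase j, ((x : ℂ) - Complex.I * a i) :=
      (Finset.mul_prod_erase univ _ (Finset.mem_univ j)).symm
    have e2 : ∏ j, (x ^ 2 + a j ^ 2) = (x ^ 2 + a j ^ 2) * ∏ i ∈ univ.erase j, (x ^ 2 + a i ^ 2) :=
      (Finset.mul_prod_erase univ (fun j => x ^ 2 + a j ^ 2) (Finset.mem_univ j)).symm
    have e3 : (∏ i ∈ univ.erase j, ((x : ℂ) + Complex.I * a i)) *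
        ∏ i ∈ univ.erase j, ((x : ℂ) - Complex.I * a i) =
        ((∏ i ∈ univ.erase j, (x ^ 2 + a i ^ 2) : ℝ) : ℂ) := by
      rw [← Finset.prod_mul_distrib, Complex.ofReal_prod]
      exact Finset.prod_congr rfl fun i _ => h3 i
    have e4 : (∏ j, (x ^ 2 + a j ^ 2)) * (u j ^ 2 / (x ^ 2 + a j ^ 2)) =
        u j ^ 2 * ∏ i ∈ univ.erase j, (x ^ 2 + a i ^ 2) := by
      rw [e2]
      have := hp j
      field_simp
    rw [e4, e1]
    push_cast
    push_cast at e3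
    linear_combination ((u j : ℂ) ^ 2 * ((x : ℂ) - Complex.I * a j)) * e3
  rw [h1, Complex.re_sum, Finset.mul_sum, Finset.mul_sum]
  refine Finset.sum_congr rfl fun j _ => ?_
  rw [Complex.sub_re, Complex.re_mul_ofReal, Complex.I_re, zero_mul, sub_zero, Complex.ofReal_re]
  ring

theorem S_eq (m : ℕ) (a w : Fin (m + 1) → ℝ) (c : Fin m → ℝ)
    (h : ∀ x : ℂ, ∑ j, (w j : ℂ) * ∏ i ∈ univ.erase j, (x - a i) = ∏ k, (x - c k)) (x : ℝ) :
    ∑ j, (w j : ℂ) * ∏ i ∈ univ.erase j, ((x : ℂ) + Complex.I * a i) =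
      ∏ k, ((x : ℂ) + Complex.I * c k) := by
  have h1 : ∀ y : ℂ, ((x : ℂ) + Complex.I * y) = (-Complex.I) * (Complex.I * x - y) := by
    intro y
    have hI : Complex.I * Complex.I = -1 := Complex.I_mul_I
    linear_combination (x : ℂ) * hI
  have h2 : ∀ j : Fin (m + 1), ∏ i ∈ univ.erase j, ((x : ℂ) + Complex.I * a i) =
      (-Complex.I) ^ m * ∏ i ∈ univ.erase j, (Complex.I * x - a i) := by
    intro j
    rw [Finset.prod_congr rfl (fun i _ => h1 (a i)), Finset.prod_mul_distrib, Finset.prod_const,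
      Finset.card_erase_of_mem (Finset.mem_univ j), Finset.card_univ, Fintype.card_fin,
      Nat.add_sub_cancel]
  have h3 : ∏ k, ((x : ℂ) + Complex.I * c k) = (-Complex.I) ^ m * ∏ k, (Complex.I * x - c k) := by
    rw [Finset.prod_congr rfl (fun i _ => h1 (c i)), Finset.prod_mul_distrib, Finset.prod_const,
      Finset.card_univ, Fintype.card_fin]
  rw [h3, ← h (Complex.I * x), Finset.mul_sum]
  refine Finset.sum_congr rfl fun j _ => ?_
  rw [h2 j]
  ring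

/-! ### characteristic polynomials -/

theorem det_of_charpoly' {n : ℕ} (N : Matrix (Fin n) (Fin n) ℂ) (s : Fin n → ℝ)
    (h : N.charpoly = ∏ j, (X - C (((s j) ^ 2 : ℝ) : ℂ))) (t : ℝ) :
    (((t : ℝ) : ℂ) • (1 : Matrix (Fin n) (Fin n) ℂ) + N).det =
      ((∏ j, (t + s j ^ 2) : ℝ) : ℂ) := by
  have h1 : (N.charpoly).eval (-((t : ℝ) : ℂ)) =
      (Matrix.scalar (Fin n) (-((t : ℝ) : ℂ)) - N).det := Matrix.eval_charpoly N _
  have h2 : (Matrix.scalar (Fin n) (-((t : ℝ) : ℂ)) - N) =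
      -(((t : ℝ) : ℂ) • (1 : Matrix (Fin n) (Fin n) ℂ) + N) := by
    ext i j
    by_cases hij : i = j
    · subst hij
      simp [Matrix.scalar_apply]
      ring
    · simp [Matrix.scalar_apply, hij]
  have h3 : (N.charpoly).eval (-((t : ℝ) : ℂ)) =
      (-1) ^ n * ((∏ j, (t + s j ^ 2) : ℝ) : ℂ) := by
    rw [h, Polynomial.eval_prod]
    have : ∀ j : Fin n, (X - C (((s j) ^ 2 : ℝ) : ℂ)).eval (-((t : ℝ) : ℂ)) =
        (-1) * (((t + s j ^ 2 : ℝ)) : ℂ) := by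
      intro j
      simp only [eval_sub, eval_X, eval_C]
      push_cast
      ring
    rw [Finset.prod_congr rfl (fun j _ => this j), Finset.prod_mul_distrib]
    simp
  rw [h2, Matrix.det_neg, h3] at h1
  have h4 : ((-1 : ℂ) ^ n) ≠ 0 := pow_ne_zero _ (by norm_num)
  rw [Fintype.card_fin] at h1
  exact (mul_left_cancel₀ h4 h1).symm

theorem prod_one (m : ℕ) (i₀ : Fin (m + 1)) (f : Fin (m + 1) → ℂ) (y : ℂ)
    (h : ∀ j, j ≠ i₀ → f j = y) : ∏ j, f j = f i₀ * y ^ m := by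
  rw [← Finset.mul_prod_erase univ f (Finset.mem_univ i₀)]
  congr 1
  rw [Finset.prod_congr rfl (g := fun _ => y) (fun j hj => h j (Finset.ne_of_mem_erase hj)),
    Finset.prod_const, Finset.card_erase_of_mem (Finset.mem_univ i₀), Finset.card_univ,
    Fintype.card_fin, Nat.add_sub_cancel]

theorem eval_shift {n : ℕ} (M : Matrix (Fin n) (Fin n) ℂ) (μ z : ℂ) :
    (M + μ • (1 : Matrix (Fin n) (Fin n) ℂ)).charpoly.eval z = M.charpoly.eval (z - μ) := by
  rw [Matrix.eval_charpoly, Matrix.eval_charpoly]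
  congr 1
  rw [Matrix.scalar_apply, Matrix.scalar_apply, ← Matrix.smul_one_eq_diagonal,
    ← Matrix.smul_one_eq_diagonal, sub_smul]
  abel

/-! ### normal form -/

theorem normal_form' (m : ℕ) (a : Fin (m + 1) → ℝ) (β : ℝ)
    (A B : Matrix (Fin (m + 1)) (Fin (m + 1)) ℂ) (hA : IsEig A a) (hB1 : B.IsHermitian)
    (hB2 : B.charpoly = ∏ j : Fin (m + 1), (X - C (((if j = 0 then β else 0 : ℝ)) : ℂ))) :
    ∃ (u : Fin (m + 1) → ℝ) (W : Matrix (Fin (m + 1)) (Fin (m + 1)) ℂ), ∑ j, u j ^ 2 = 1 ∧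
      Wᴴ * W = 1 ∧ W * Wᴴ = 1 ∧ A + Complex.I • B = W * MM a u β * Wᴴ := by
  obtain ⟨U, hU1, hU2, hU3⟩ := basis A a hA.1 hA.2.2
  obtain ⟨V, hV1, hV2, hV3⟩ := basis B _ hB1 hB2
  have hAe : A = U * Matrix.diagonal (fun j => ((a j : ℝ) : ℂ)) * Uᴴ := by
    rw [← hU3, Matrix.mul_assoc, hU2, Matrix.mul_one]
  obtain ⟨v, hvdef⟩ : ∃ v : Fin (m + 1) → ℂ, v = fun i => V i 0 := ⟨_, rfl⟩
  have hBe : B = (β : ℂ) • Matrix.vecMulVec v (star v) := by
    have h1 : B = V * Matrix.diagonal (fun j => (((if j = 0 then β else 0 : ℝ)) : ℂ)) * Vᴴ := by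
      rw [← hV3, Matrix.mul_assoc, hV2, Matrix.mul_one]
    rw [h1]
    ext i j
    rw [Matrix.mul_apply, Finset.sum_eq_single 0]
    · rw [Matrix.mul_diagonal, Matrix.conjTranspose_apply, Matrix.smul_apply,
        Matrix.vecMulVec_apply, hvdef]
      simp only [if_true, Pi.star_apply, smul_eq_mul]
      ring
    · intro k _ hk
      rw [Matrix.mul_diagonal]
      simp [hk]
    · intro h
      exact absurd (Finset.mem_univ _) h
  have hv : star v ⬝ᵥ v = 1 := by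
    have h1 := congrFun (congrFun hV1 0) 0
    rw [Matrix.mul_apply, Matrix.one_apply_eq] at h1
    rw [dotProduct, ← h1, hvdef]
    rfl
  obtain ⟨z, hzdef⟩ : ∃ z : Fin (m + 1) → ℂ, z = Uᴴ *ᵥ v := ⟨_, rfl⟩
  have hUz : U *ᵥ z = v := by
    rw [hzdef, Matrix.mulVec_mulVec, hU2, Matrix.one_mulVec]
  have hz : star z ⬝ᵥ z = 1 := by
    have h1 : star z = star v ᵥ* U := by
      rw [hzdef, Matrix.star_mulVec, Matrix.conjTranspose_conjTranspose]
    rw [h1, ← Matrix.dotProduct_mulVec, hUz, hv]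
  obtain ⟨p, hpdef⟩ : ∃ p : Fin (m + 1) → ℂ,
    p = fun j => if z j = 0 then 1 else z j / ((‖z j‖ : ℝ) : ℂ) := ⟨_, rfl⟩
  have hp1 : ∀ j, p j * ((‖z j‖ : ℝ) : ℂ) = z j := by
    intro j
    rw [hpdef]
    by_cases h : z j = 0
    · simp [h]
    · have h2 : ((‖z j‖ : ℝ) : ℂ) ≠ 0 := by
        rw [Complex.ofReal_ne_zero]
        exact norm_ne_zero_iff.mpr h
      simp only [h, if_false]
      rw [div_mul_cancel₀ _ h2]
  have hpn : ∀ j, ‖p j‖ = 1 := by
    intro j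
    rw [hpdef]
    by_cases h : z j = 0
    · simp [h]
    · have h2 : ‖z j‖ ≠ 0 := norm_ne_zero_iff.mpr h
      simp only [h, if_false]
      rw [norm_div, Complex.norm_real, norm_norm, div_self h2]
  have hps : ∀ j, star (p j) * p j = 1 := by
    intro j
    have := Complex.conj_mul' (p j)
    rw [hpn j] at this
    simpa using this
  have hd1 : (Matrix.diagonal p)ᴴ * Matrix.diagonal p = 1 := by
    rw [Matrix.diagonal_conjTranspose, Matrix.diagonal_mul_diagonal, ← Matrix.diagonal_one]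
    congr 1
    funext j
    exact hps j
  have hd2 : Matrix.diagonal p * (Matrix.diagonal p)ᴴ = 1 := by
    rw [Matrix.diagonal_conjTranspose, Matrix.diagonal_mul_diagonal, ← Matrix.diagonal_one]
    congr 1
    funext j
    rw [mul_comm]
    exact hps j
  refine ⟨fun j => ‖z j‖, U * Matrix.diagonal p, ?_, ?_, ?_, ?_⟩
  · have h1 : ((∑ j, ‖z j‖ ^ 2 : ℝ) : ℂ) = 1 := by
      rw [← hz, dotProduct]
      push_cast
      apply Finset.sum_congr rfl
      intro j _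
      exact (Complex.conj_mul' (z j)).symm
    exact_mod_cast h1
  · rw [Matrix.conjTranspose_mul, Matrix.mul_assoc, ← Matrix.mul_assoc Uᴴ, hU1, Matrix.one_mul,
      hd1]
  · rw [Matrix.conjTranspose_mul, Matrix.mul_assoc, ← Matrix.mul_assoc (Matrix.diagonal p), hd2,
      Matrix.one_mul, hU2]
  · obtain ⟨uc, hucdef⟩ : ∃ uc : Fin (m + 1) → ℂ, uc = fun j => ((‖z j‖ : ℝ) : ℂ) := ⟨_, rfl⟩
    have hMM : MM a (fun j => ‖z j‖) β = Matrix.diagonal (fun j => ((a j : ℝ) : ℂ)) +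
        Complex.I • ((β : ℂ) • Matrix.vecMulVec uc uc) := by
      unfold MM
      congr 2
      ext i j
      rw [Matrix.of_apply, Matrix.smul_apply, Matrix.vecMulVec_apply, hucdef]
      push_cast
      simp only [smul_eq_mul]
      ring
    have hWu : (U * Matrix.diagonal p) *ᵥ uc = v := by
      rw [← Matrix.mulVec_mulVec]
      have : Matrix.diagonal p *ᵥ uc = z := by
        funext j
        rw [Matrix.mulVec_diagonal, hucdef]
        exact hp1 j
      rw [this, hUz]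
    have hstar : star uc = uc := by
      funext j
      rw [hucdef]
      exact Complex.conj_ofReal _
    have hWs : uc ᵥ* (U * Matrix.diagonal p)ᴴ = star v := by
      rw [← hWu, Matrix.star_mulVec, hstar]
    rw [hMM, Matrix.mul_add, Matrix.add_mul, Matrix.mul_smul, Matrix.smul_mul, Matrix.mul_smul,
      Matrix.smul_mul, Matrix.mul_vecMulVec, Matrix.vecMulVec_mul, hWu, hWs, ← hBe]
    congr 1
    rw [Matrix.conjTranspose_mul, Matrix.mul_assoc U, Matrix.mul_assoc U, ← Matrix.mul_assoc _ _ Uᴴ,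
      Matrix.diagonal_conjTranspose, Matrix.diagonal_mul_diagonal, Matrix.diagonal_mul_diagonal]
    rw [← Matrix.mul_assoc]
    have h5 : (fun i => p i * ((a i : ℝ) : ℂ) * star p i) = fun j => ((a j : ℝ) : ℂ) := by
      funext j
      have := hps j
      rw [Pi.star_apply, mul_comm (p j), mul_assoc, mul_comm (p j), this, mul_one]
    rw [h5]
    exact hAe


/-! ### the explicit matrix `B` -/

theorem charpoly_uu (m : ℕ) (u : Fin (m + 1) → ℝ) (β : ℝ) (hu : ∑ j, u j ^ 2 = 1) :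
    (Matrix.of (fun i j => ((β * u i * u j : ℝ) : ℂ)) : Matrix (Fin (m+1)) (Fin (m+1)) ℂ).charpoly
      = (X - C (β : ℂ)) * X ^ m := by
  have h1 : (Matrix.of (fun i j => ((β * u i * u j : ℝ) : ℂ)) : Matrix (Fin (m+1)) (Fin (m+1)) ℂ)
      = Matrix.vecMulVec (fun i => (β : ℂ) * (u i : ℂ)) (fun j => (u j : ℂ)) := by
    ext i j
    simp [Matrix.vecMulVec_apply]
  rw [h1, Matrix.charpoly_vecMulVec]
  have h2 : (fun i => (β : ℂ) * (u i : ℂ)) ⬝ᵥ (fun j => (u j : ℂ)) = (β : ℂ) := by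
    have : ((∑ j, u j ^ 2 : ℝ) : ℂ) = 1 := by rw [hu]; simp
    simp only [dotProduct]
    push_cast at this
    calc ∑ i, (β : ℂ) * (u i : ℂ) * (u i : ℂ) = (β : ℂ) * ∑ i, (u i : ℂ) ^ 2 := by
          rw [Finset.mul_sum]; refine Finset.sum_congr rfl fun i _ => by ring
      _ = β := by rw [this, mul_one]
  rw [h2]
  simp [Polynomial.smul_eq_C_mul]
  ring


theorem eigB' (m : ℕ) (u b : Fin (m + 1) → ℝ) (i₀ : Fin (m + 1)) (μ : ℝ) (hb : Antitone b)
    (h : ∀ j, j ≠ i₀ → b j = μ) (hu : ∑ j, u j ^ 2 = 1) :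
    IsEig (Matrix.of (fun i j => (((b i₀ - μ) * u i * u j : ℝ) : ℂ)) +
      (μ : ℂ) • (1 : Matrix (Fin (m + 1)) (Fin (m + 1)) ℂ)) b := by
  refine ⟨?_, hb, ?_⟩
  · rw [Matrix.IsHermitian, Matrix.conjTranspose_add, Matrix.conjTranspose_smul,
      Matrix.conjTranspose_one]
    congr 1
    · ext i j
      simp only [Matrix.conjTranspose_apply, Matrix.of_apply, RCLike.star_def, Complex.conj_ofReal]
      congr 1; ring
    · congr 1
      exact Complex.conj_ofReal _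
  · apply Polynomial.funext
    intro z
    rw [eval_shift, charpoly_uu m u _ hu, Polynomial.eval_prod,
      prod_one m i₀ _ (z - μ) (fun j hj => by simp [h j hj])]
    simp only [eval_mul, eval_sub, eval_X, eval_C, eval_pow]
    push_cast
    ring

/-! ### the determinant in terms of `c` -/

theorem key (m : ℕ) (a u : Fin (m + 1) → ℝ) (c : Fin m → ℝ) (β μ x : ℝ) (hx : x ≠ 0)
    (hu : ∑ j, u j ^ 2 = 1)
    (hc : ∀ x : ℂ, ∑ j, ((u j ^ 2 : ℝ) : ℂ) * ∏ i ∈ univ.erase j, (x - a i) = ∏ k, (x - c k)) :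
    (x : ℂ) * (((x ^ 2 - μ ^ 2 : ℝ) : ℂ) • (1 : Matrix (Fin (m + 1)) (Fin (m + 1)) ℂ) +
      (XX a u β μ)ᴴ * XX a u β μ).det =
    ((x * ∏ j, (x ^ 2 + a j ^ 2) + β ^ 2 * (x * ∏ k, (x ^ 2 + c k ^ 2)) +
      2 * μ * β * ((∏ k, ((x : ℂ) + Complex.I * c k)) * ∏ j, ((x : ℂ) - Complex.I * a j)).re : ℝ) : ℂ) := by
  have h1 := mixed a u x hx
  rw [S_eq m a (fun j => u j ^ 2) c hc x] at h1
  rw [det_XX a u β μ x hx hu, norm_id m a (fun j => u j ^ 2) c hc x, h1]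
  push_cast
  ring

theorem unit_det {n : ℕ} (M W Y : Matrix (Fin n) (Fin n) ℂ) (hW : Wᴴ * W = 1)
    (hW' : W * Wᴴ = 1) (hM : M = W * Y * Wᴴ) (t : ℂ) :
    (t • (1 : Matrix (Fin n) (Fin n) ℂ) + Mᴴ * M).det =
      (t • (1 : Matrix (Fin n) (Fin n) ℂ) + Yᴴ * Y).det := by
  have h4 : t • (1 : Matrix (Fin n) (Fin n) ℂ) + Mᴴ * M =
      W * (t • 1 + Yᴴ * Y) * Wᴴ := by
    rw [hM, Matrix.conjTranspose_mul, Matrix.conjTranspose_mul, Matrix.conjTranspose_conjTranspose]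
    have e1 : W * (Yᴴ * Wᴴ) * (W * Y * Wᴴ) = W * (Yᴴ * Y) * Wᴴ := by
      calc W * (Yᴴ * Wᴴ) * (W * Y * Wᴴ)
          = W * Yᴴ * (Wᴴ * W) * (Y * Wᴴ) := by
            simp only [Matrix.mul_assoc]
        _ = W * (Yᴴ * Y) * Wᴴ := by
            rw [hW]; simp only [Matrix.mul_assoc, Matrix.one_mul]
    rw [e1, Matrix.mul_add, Matrix.add_mul]
    congr 1
    rw [Matrix.mul_smul, Matrix.mul_one, Matrix.smul_mul, hW']
  have h5 : W.det * Wᴴ.det = 1 := by
    rw [← Matrix.det_mul, hW', Matrix.det_one]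
  rw [h4, Matrix.det_mul, Matrix.det_mul]
  linear_combination (t • (1 : Matrix (Fin n) (Fin n) ℂ) + Yᴴ * Y).det * h5

theorem forward (m : ℕ) (a b s : Fin (m + 1) → ℝ) (i₀ : Fin (m + 1)) (μ : ℝ)
    (h : ∀ j, j ≠ i₀ → b j = μ) (hr : Realizable a b s) :
    ∃ c : Fin m → ℝ, (∀ k : Fin m, a k.succ ≤ c k ∧ c k ≤ a k.castSucc) ∧
      ∀ x : ℝ, x ≠ 0 → x * ∏ j, (x ^ 2 - μ ^ 2 + s j ^ 2) =
        x * ∏ j, (x ^ 2 + a j ^ 2) + (b i₀ - μ) ^ 2 * (x * ∏ k, (x ^ 2 + c k ^ 2)) +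
        2 * μ * (b i₀ - μ) *
          ((∏ k, ((x : ℂ) + Complex.I * c k)) * ∏ j, ((x : ℂ) - Complex.I * a j)).re := by
  obtain ⟨A, B, hA, hB, hS⟩ := hr
  obtain ⟨β, hβ⟩ : ∃ β, β = b i₀ - μ := ⟨_, rfl⟩
  obtain ⟨B', hB'⟩ : ∃ B', B' = B - (μ : ℂ) • (1 : Matrix (Fin (m + 1)) (Fin (m + 1)) ℂ) := ⟨_, rfl⟩
  have hBB : B = B' + (μ : ℂ) • 1 := by rw [hB', sub_add_cancel]
  have hB1 : B'.IsHermitian := by
    rw [hB', Matrix.IsHermitian, Matrix.conjTranspose_sub, hB.1, Matrix.conjTranspose_smul,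
      Matrix.conjTranspose_one]
    congr 2
    exact Complex.conj_ofReal _
  have hB2 : B'.charpoly = ∏ j : Fin (m + 1), (X - C (((if j = 0 then β else 0 : ℝ)) : ℂ)) := by
    apply Polynomial.funext
    intro z
    have e1 : B'.charpoly.eval z = B.charpoly.eval (z + μ) := by
      rw [hBB, eval_shift, add_sub_cancel_right]
    rw [e1, hB.2.2, Polynomial.eval_prod, Polynomial.eval_prod,
      prod_one m i₀ _ z (fun j hj => by simp [h j hj]), prod_one m 0 _ z (fun j hj => by simp [hj])]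
    simp only [eval_sub, eval_X, eval_C, if_true, hβ]
    push_cast
    ring
  obtain ⟨u, W, hu, hW, hW', hM⟩ := normal_form' m a β A B' hA hB1 hB2
  obtain ⟨c, hc, hcx⟩ := exists_c m a (fun j => u j ^ 2) hA.2.1 (fun j => sq_nonneg _) hu
  refine ⟨c, hc, fun x hx => ?_⟩
  have hM' : A + Complex.I • B = W * XX a u β μ * Wᴴ := by
    rw [hBB, smul_add, ← add_assoc, hM, XX_eq, Matrix.mul_add, Matrix.add_mul, Matrix.mul_smul,
      Matrix.mul_one, Matrix.smul_mul, hW', smul_smul]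
  have h1 := det_of_charpoly' _ s hS.2.2 (x ^ 2 - μ ^ 2)
  rw [unit_det _ W _ hW hW' hM'] at h1
  have h2 := key m a u c β μ x hx hu hcx
  rw [h1] at h2
  rw [← hβ]
  exact_mod_cast h2

theorem backward (m : ℕ) (a b s : Fin (m + 1) → ℝ) (i₀ : Fin (m + 1)) (μ : ℝ)
    (ha : Antitone a) (hb : Antitone b) (hs : Antitone s) (hs0 : ∀ j, 0 ≤ s j)
    (h : ∀ j, j ≠ i₀ → b j = μ)
    (hr : ∃ c : Fin m → ℝ, (∀ k : Fin m, a k.succ ≤ c k ∧ c k ≤ a k.castSucc) ∧
      ∀ x : ℝ, x ≠ 0 → x * ∏ j, (x ^ 2 - μ ^ 2 + s j ^ 2) =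
        x * ∏ j, (x ^ 2 + a j ^ 2) + (b i₀ - μ) ^ 2 * (x * ∏ k, (x ^ 2 + c k ^ 2)) +
        2 * μ * (b i₀ - μ) *
          ((∏ k, ((x : ℂ) + Complex.I * c k)) * ∏ j, ((x : ℂ) - Complex.I * a j)).re) :
    Realizable a b s := by
  obtain ⟨c, hc, hid⟩ := hr
  obtain ⟨w, hw0, hw1, hwx⟩ := weights_weak m a c hc
  obtain ⟨u, hu⟩ : ∃ u : Fin (m + 1) → ℝ, u = fun j => Real.sqrt (w j) := ⟨_, rfl⟩
  have hsq : ∀ j, (u j) ^ 2 = w j := fun j => by rw [hu]; exact Real.sq_sqrt (hw0 j)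
  have hu1 : ∑ j, u j ^ 2 = 1 := by simp only [hsq, hw1]
  have hcx : ∀ x : ℂ, ∑ j, ((u j ^ 2 : ℝ) : ℂ) * ∏ i ∈ univ.erase j, (x - a i) =
      ∏ k, (x - c k) := by
    intro x
    rw [← hwx x]
    exact Finset.sum_congr rfl fun j _ => by rw [hsq j]
  refine ⟨_, _, eigA a ha, eigB' m u b i₀ μ hb h hu1, hs, hs0, ?_⟩
  have hX : Matrix.diagonal (fun j => ((a j : ℝ) : ℂ)) + Complex.I •
      (Matrix.of (fun i j => (((b i₀ - μ) * u i * u j : ℝ) : ℂ)) +
      (μ : ℂ) • (1 : Matrix (Fin (m + 1)) (Fin (m + 1)) ℂ)) = XX a u (b i₀ - μ) μ := by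
    rw [XX_eq, MM, smul_add, smul_smul, add_assoc]
  rw [hX]
  apply charpoly_of_det
  intro τ hτ
  obtain ⟨x, hx⟩ : ∃ x, x = Real.sqrt (τ ^ 2 + μ ^ 2) := ⟨_, rfl⟩
  have hτ2 : 0 < τ ^ 2 := by positivity
  have hx0 : 0 < x := by rw [hx]; apply Real.sqrt_pos.mpr; positivity
  have hx2 : x ^ 2 = τ ^ 2 + μ ^ 2 := by rw [hx]; exact Real.sq_sqrt (by positivity)
  have h2 := key m a u c (b i₀ - μ) μ x hx0.ne' hu1 hcx
  rw [← hid x hx0.ne'] at h2
  have h3 : x ^ 2 - μ ^ 2 = τ ^ 2 := by rw [hx2]; ring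
  rw [h3] at h2
  rw [Complex.ofReal_mul] at h2
  exact mul_left_cancel₀ (Complex.ofReal_ne_zero.mpr hx0.ne') h2

/-- exchanging the roles of `A` and `B` -/
theorem swap {n : ℕ} (a b s : Fin n → ℝ) (h : Realizable a b s) : Realizable b a s := by
  obtain ⟨A, B, hA, hB, hs, hs0, hS⟩ := h
  refine ⟨B, A, hB, hA, hs, hs0, ?_⟩
  have e1 : B + Complex.I • A = Complex.I • (A + Complex.I • B)ᴴ := by
    rw [Matrix.conjTranspose_add, Matrix.conjTranspose_smul, hA.1, hB.1, smul_add, smul_smul]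
    have : Complex.I * star Complex.I = 1 := by
      rw [RCLike.star_def, Complex.conj_I]
      linear_combination -Complex.I_sq
    rw [this, one_smul, add_comm]
  have e2 : (B + Complex.I • A)ᴴ * (B + Complex.I • A) =
      (A + Complex.I • B) * (A + Complex.I • B)ᴴ := by
    rw [e1, Matrix.conjTranspose_smul, Matrix.conjTranspose_conjTranspose, Matrix.smul_mul,
      Matrix.mul_smul, smul_smul]
    have : star Complex.I * Complex.I = 1 := by
      rw [RCLike.star_def, Complex.conj_I]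
      linear_combination -Complex.I_sq
    rw [this, one_smul]
  rw [e2, Matrix.charpoly_mul_comm]
  exact hS

/-- **All realizable triples in which all eigenvalues of `A` or of `B` but one are equal.** -/
theorem result (m : ℕ) (a b s : Fin (m + 1) → ℝ) (ha : Antitone a) (hb : Antitone b)
    (hs : Antitone s) (hs0 : ∀ j, 0 ≤ s j) (μ : ℝ) (i₀ : Fin (m + 1))
    (h : ∀ j, j ≠ i₀ → b j = μ) :
    (Realizable a b s ↔
      ∃ c : Fin m → ℝ, (∀ k : Fin m, a k.succ ≤ c k ∧ c k ≤ a k.castSucc) ∧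
        ∀ x : ℝ, x ≠ 0 → x * ∏ j, (x ^ 2 - μ ^ 2 + s j ^ 2) =
          x * ∏ j, (x ^ 2 + a j ^ 2) + (b i₀ - μ) ^ 2 * (x * ∏ k, (x ^ 2 + c k ^ 2)) +
          2 * μ * (b i₀ - μ) *
            ((∏ k, ((x : ℂ) + Complex.I * c k)) * ∏ j, ((x : ℂ) - Complex.I * a j)).re) ∧
    (Realizable b a s ↔ Realizable a b s) :=
  ⟨⟨forward m a b s i₀ μ h, backward m a b s i₀ μ ha hb hs hs0 h⟩, ⟨swap b a s, swap a b s⟩⟩

end Pool.Agent.Results.MP_08a990_an.OneExceptional
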